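import Mathlib

/-! EAC project: polynomial functions near infinity. -/

set_option autoImplicit false

open Filter Topology MvPolynomial

namespace Pool.Agent.K3h10.EAC

/-- polynomial functions are smooth -/
theorem contDiff_eval {σ : Type*} [Fintype σ] (F : MvPolynomial σ ℂ) :
    ContDiff ℂ 1 (fun a : σ → ℂ => eval a F) := by
  induction F using MvPolynomial.induction_on with
  | C a => simpa using contDiff_const
  | add p q hp hq => simpa using hp.add hq
  | mul_X p s hp =>
    simp only [map_mul, eval_X]
    exact hp.mul (contDiff_apply ℂ ℂ s)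

/-- first order expansion with a smooth remainder -/
theorem expand {n : ℕ} (G : MvPolynomial (Fin n) ℂ) :
    ∃ H : ℂ × (Fin n → ℂ) × (Fin n → ℂ) → ℂ, ContDiff ℂ 1 H ∧
      (∀ (ε : ℂ) (x w : Fin n → ℂ), eval (x + ε • w) G = eval x G + ε * H (ε, x, w)) ∧
      ∀ x w : Fin n → ℂ, H (0, x, w) = ∑ j, eval x (pderiv j G) * w j := by
  induction G using MvPolynomial.induction_on with
  | C a => exact ⟨fun _ => 0, contDiff_const, by simp, by simp⟩
  | add p q hp hq =>
    obtain ⟨H₁, h11, h12, h13⟩ := hp
    obtain ⟨H₂, h21, h22, h23⟩ := hq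
    refine ⟨fun z => H₁ z + H₂ z, h11.add h21, ?_, ?_⟩
    · intro ε x w
      simp only [map_add, h12, h22]
      ring
    · intro x w
      simp only [h13, h23, map_add, add_mul, Finset.sum_add_distrib]
  | mul_X p s hp =>
    obtain ⟨H, h1, h2, h3⟩ := hp
    refine ⟨fun z => eval z.2.1 p * z.2.2 s + H z * (z.2.1 s + z.1 * z.2.2 s), ?_, ?_, ?_⟩
    · have e1 : ContDiff ℂ 1 (fun z : ℂ × (Fin n → ℂ) × (Fin n → ℂ) => eval z.2.1 p) :=
        (contDiff_eval p).comp (contDiff_fst.comp contDiff_snd)
      have e2 : ContDiff ℂ 1 (fun z : ℂ × (Fin n → ℂ) × (Fin n → ℂ) => z.2.2 s) :=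
        (contDiff_apply ℂ ℂ s).comp (contDiff_snd.comp contDiff_snd)
      have e3 : ContDiff ℂ 1 (fun z : ℂ × (Fin n → ℂ) × (Fin n → ℂ) => z.2.1 s) :=
        (contDiff_apply ℂ ℂ s).comp (contDiff_fst.comp contDiff_snd)
      exact (e1.mul e2).add (h1.mul (e3.add (contDiff_fst.mul e2)))
    · intro ε x w
      simp only [map_mul, eval_X, h2, Pi.add_apply, Pi.smul_apply, smul_eq_mul]
      ring
    · intro x w
      simp only [h3, zero_mul, add_zero, Derivation.leibniz, pderiv_X, smul_eq_mul, map_add,
        map_mul, eval_X, add_mul, Finset.sum_add_distrib]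
      have : ∀ j, eval x p * eval x (Pi.single (M := fun _ => MvPolynomial (Fin n) ℂ) j 1 s) * w j =
          if j = s then eval x p * w s else 0 := by
        intro j
        by_cases h : j = s
        · subst h
          simp
        · rw [Pi.single_eq_of_ne (Ne.symm h)]
          simp [h]
      rw [Finset.sum_congr rfl (fun j _ => this j)]
      simp only [Finset.sum_ite_eq', Finset.mem_univ, if_true, Finset.sum_mul]
      congr 1
      refine Finset.sum_congr rfl fun j _ => ?_
      ring

/-- the coordinate functions -/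
noncomputable def pr {n : ℕ} (k : Fin n) : (Fin n → ℂ) →L[ℂ] ℂ := ContinuousLinearMap.proj k

theorem pr_apply {n : ℕ} (k : Fin n) (x : Fin n → ℂ) : pr k x = x k := rfl

/-- the derivative of a polynomial in `x` and `e^ξ` with respect to `ξ` -/
theorem hasFDerivAt_exp {n : ℕ} (T : MvPolynomial (Fin n ⊕ Fin n) ℂ) (u ξ : Fin n → ℂ) :
    HasFDerivAt (fun ξ : Fin n → ℂ => eval (Sum.elim u (fun k => Complex.exp (ξ k))) T)
      (∑ k, (Complex.exp (ξ k) * eval (Sum.elim u (fun k => Complex.exp (ξ k)))
        (pderiv (Sum.inr k) T)) • pr k) ξ := by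
  induction T using MvPolynomial.induction_on with
  | C a =>
    simp only [eval_C]
    refine (hasFDerivAt_const (𝕜 := ℂ) a ξ).congr_fderiv ?_
    symm
    refine Finset.sum_eq_zero fun k _ => ?_
    rw [pderiv_C, map_zero, mul_zero]
    exact zero_smul ℂ (pr k)
  | add p q hp hq =>
    simp only [map_add]
    refine (hp.add hq).congr_fderiv ?_
    rw [← Finset.sum_add_distrib]
    refine Finset.sum_congr rfl fun k _ => ?_
    rw [← add_smul, mul_add]
  | mul_X p s hp =>
    cases s with
    | inl j =>
      simp only [map_mul, eval_X, Sum.elim_inl, Derivation.leibniz, pderiv_X, smul_eq_mul, map_add]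
      have h1 := hp.mul_const (u j)
      refine h1.congr_fderiv ?_
      rw [Finset.smul_sum]
      refine Finset.sum_congr rfl fun k _ => ?_
      rw [Pi.single_eq_of_ne (by simp : (Sum.inl j : Fin n ⊕ Fin n) ≠ Sum.inr k), smul_smul]
      congr 1
      simp only [map_zero, mul_zero, zero_add]
      ring
    | inr j =>
      simp only [map_mul, eval_X, Sum.elim_inr, Derivation.leibniz, pderiv_X, smul_eq_mul, map_add]
      have h0 : HasFDerivAt (fun ξ : Fin n → ℂ => Complex.exp (ξ j))
          (Complex.exp (ξ j) • pr j) ξ :=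
        (pr j).hasFDerivAt.cexp
      have h1 := hp.mul h0
      refine h1.congr_fderiv ?_
      have : ∀ k : Fin n, (Complex.exp (ξ k) * (eval (Sum.elim u fun k => Complex.exp (ξ k)) p *
          eval (Sum.elim u fun k => Complex.exp (ξ k))
            (Pi.single (M := fun _ : Fin n ⊕ Fin n => MvPolynomial (Fin n ⊕ Fin n) ℂ)
              (Sum.inr k : Fin n ⊕ Fin n) 1 (Sum.inr j)) +
          Complex.exp (ξ j) * eval (Sum.elim u fun k => Complex.exp (ξ k))
            ((pderiv (Sum.inr k)) p))) • pr k =
          (if k = j then (eval (Sum.elim u fun k => Complex.exp (ξ k)) p * Complex.exp (ξ j)) •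
            pr j else 0) +
          Complex.exp (ξ j) • ((Complex.exp (ξ k) * eval (Sum.elim u fun k => Complex.exp (ξ k))
            ((pderiv (Sum.inr k)) p)) • pr k) := by
        intro k
        by_cases h : k = j
        · subst h
          rw [Pi.single_eq_same, if_pos rfl, map_one]
          refine ContinuousLinearMap.ext fun x => ?_
          simp only [ContinuousLinearMap.smul_apply, ContinuousLinearMap.add_apply, smul_eq_mul]
          ring
        · rw [Pi.single_eq_of_ne (by simpa using Ne.symm h : (Sum.inr j : Fin n ⊕ Fin n) ≠ Sum.inr k),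
            if_neg h, smul_smul, zero_add]
          congr 1
          simp only [map_zero, mul_zero, zero_add]
          ring
      rw [Finset.sum_congr rfl (fun k _ => this k)]
      rw [Finset.sum_add_distrib, ← Finset.smul_sum]
      simp only [Finset.sum_ite_eq', Finset.mem_univ, if_true]
      rw [smul_smul]

/-- weights: the variables `x` have weight one, the variables `y` weight zero -/
def wt (n : ℕ) : Fin n ⊕ Fin n → ℕ := Sum.elim (fun _ => 1) (fun _ => 0)

/-- the component of degree `j` in the variables `x` -/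
noncomputable def xComp {n : ℕ} (j : ℕ) (F : MvPolynomial (Fin n ⊕ Fin n) ℂ) :
    MvPolynomial (Fin n ⊕ Fin n) ℂ :=
  weightedHomogeneousComponent (wt n) j F

theorem eval_scale {n : ℕ} (j : ℕ) (F : MvPolynomial (Fin n ⊕ Fin n) ℂ) (c : ℂ)
    (x y : Fin n → ℂ) :
    eval (Sum.elim (c • x) y) (xComp j F) = c ^ j * eval (Sum.elim x y) (xComp j F) := by
  have hw : IsWeightedHomogeneous (wt n) (xComp j F) j :=
    weightedHomogeneousComponent_isWeightedHomogeneous j F
  rw [eval_eq', eval_eq', Finset.mul_sum]
  refine Finset.sum_congr rfl fun e he => ?_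
  have h1 : Finsupp.weight (wt n) e = j := hw (mem_support_iff.1 he)
  have h2 : ∏ i, (Sum.elim (c • x) y) i ^ e i = c ^ j * ∏ i, (Sum.elim x y) i ^ e i := by
    rw [Fintype.prod_sum_type, Fintype.prod_sum_type]
    simp only [Sum.elim_inl, Sum.elim_inr, Pi.smul_apply, smul_eq_mul, mul_pow]
    rw [Finset.prod_mul_distrib, Finset.prod_pow_eq_pow_sum]
    have h3 : ∑ i : Fin n, e (Sum.inl i) = j := by
      rw [← h1, Finsupp.weight_apply, Finsupp.sum_fintype _ _ (by simp), Fintype.sum_sum_type]
      simp [wt]
    rw [h3]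
    ring
  rw [h2]
  ring

theorem eval_sum {n : ℕ} (F : MvPolynomial (Fin n ⊕ Fin n) ℂ) (D : ℕ)
    (hF : ∀ j, D < j → xComp j F = 0) (a : Fin n ⊕ Fin n → ℂ) :
    eval a F = ∑ j ∈ Finset.range (D + 1), eval a (xComp j F) := by
  have h1 := sum_weightedHomogeneousComponent (wt n) F
  have h2 : (∑ᶠ m, weightedHomogeneousComponent (wt n) m F) =
      ∑ m ∈ Finset.range (D + 1), weightedHomogeneousComponent (wt n) m F := by
    refine finsum_eq_sum_of_support_subset _ fun m hm => ?_
    by_contra h
    refine hm (hF m ?_)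
    simpa using h
  have h3 : F = ∑ m ∈ Finset.range (D + 1), xComp m F := h1.symm.trans h2
  calc eval a F = eval a (∑ m ∈ Finset.range (D + 1), xComp m F) := congrArg _ h3
    _ = _ := map_sum _ _ _

end Pool.Agent.K3h10.EAC
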