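import Pool.Agent.K3h10.EAC.Perturb
import Pool.Agent.K3h10.EAC.Poly

/-! EAC project: exponential points near infinity in imaginary directions. -/

set_option autoImplicit false

open Filter Topology MvPolynomial

namespace Pool.Agent.K3h10.EAC

/-- the point `2 π i v` -/
noncomputable def dir {n : ℕ} (v : Fin n → ℝ) : Fin n → ℂ :=
  fun j => 2 * Real.pi * Complex.I * (v j : ℂ)

/-- the coefficients `α i j` of the linear forms -/
noncomputable def grad {n : ℕ} (G : Fin n → MvPolynomial (Fin n) ℂ) (v : Fin n → ℝ) (i j : Fin n) : ℂ :=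
  eval (dir v) (pderiv j (G i))

/-- parameters `ε, b, δ, σ` -/
abbrev Par (n : ℕ) : Type := ℂ × (Fin n → ℂ) × (Fin n → ℂ) × (Fin n → ℂ)

/-- the point `u + b + ε (δ + ξ - λ)` -/
noncomputable def pt {n : ℕ} (u lam : Fin n → ℂ) (z : Par n × (Fin n → ℂ)) : Fin n → ℂ :=
  u + z.1.2.1 + z.1.1 • (z.1.2.2.1 + z.2 - lam)

/-- the sum of the components of degree at most `d`, scaled -/
noncomputable def low {n : ℕ} (u lam : Fin n → ℂ) (F : MvPolynomial (Fin n ⊕ Fin n) ℂ) (d : ℕ)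
    (z : Par n × (Fin n → ℂ)) : ℂ :=
  ∑ j ∈ Finset.range (d + 1), z.1.1 ^ (d - j) *
    eval (Sum.elim (pt u lam z) (fun k => Complex.exp (z.2 k))) (xComp j F)

theorem contDiff_pt {n : ℕ} (u lam : Fin n → ℂ) : ContDiff ℂ 1 (pt u lam) := by
  unfold pt
  have h1 : ContDiff ℂ 1 (fun z : Par n × (Fin n → ℂ) => z.1.1) := contDiff_fst.comp contDiff_fst
  have h2 : ContDiff ℂ 1 (fun z : Par n × (Fin n → ℂ) => z.1.2.1) :=
    contDiff_fst.comp (contDiff_snd.comp contDiff_fst)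
  have h3 : ContDiff ℂ 1 (fun z : Par n × (Fin n → ℂ) => z.1.2.2.1) :=
    contDiff_fst.comp (contDiff_snd.comp (contDiff_snd.comp contDiff_fst))
  exact (contDiff_const.add h2).add (h1.smul ((h3.add contDiff_snd).sub contDiff_const))

theorem contDiff_low {n : ℕ} (u lam : Fin n → ℂ) (F : MvPolynomial (Fin n ⊕ Fin n) ℂ) (d : ℕ) :
    ContDiff ℂ 1 (low u lam F d) := by
  unfold low
  have h1 : ContDiff ℂ 1 (fun z : Par n × (Fin n → ℂ) => z.1.1) := contDiff_fst.comp contDiff_fst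
  have h2 : ContDiff ℂ 1 (fun z : Par n × (Fin n → ℂ) =>
      (Sum.elim (pt u lam z) (fun k => Complex.exp (z.2 k)) : Fin n ⊕ Fin n → ℂ)) := by
    rw [contDiff_pi]
    rintro (j | j)
    · exact (contDiff_apply ℂ ℂ j).comp (contDiff_pt u lam)
    · exact ((contDiff_apply ℂ ℂ j).comp contDiff_snd).cexp
  refine ContDiff.sum fun j _ => ?_
  exact (h1.pow _).mul ((contDiff_eval _).comp h2)

theorem low_zero {n : ℕ} (u lam : Fin n → ℂ) (F : MvPolynomial (Fin n ⊕ Fin n) ℂ) (d : ℕ)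
    (σ ξ : Fin n → ℂ) :
    low u lam F d ((0, 0, 0, σ), ξ) =
      eval (Sum.elim u (fun k => Complex.exp (ξ k))) (xComp d F) := by
  unfold low
  rw [Finset.sum_eq_single d]
  · simp [pt]
  · intro j hj hjd
    have : d - j ≠ 0 := by
      have := Finset.mem_range.1 hj
      omega
    simp [this]
  · intro h
    simp at h

/-- the scaled system -/
noncomputable def sys {n : ℕ} (F : Fin n → MvPolynomial (Fin n ⊕ Fin n) ℂ) (d : Fin n → ℕ)
    (Hf : Fin n → ℂ × (Fin n → ℂ) × (Fin n → ℂ) → ℂ) (u lam : Fin n → ℂ)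
    (z : Par n × (Fin n → ℂ)) : Fin n → ℂ := fun i =>
  z.1.2.2.2 i + Hf i (z.1.1, u + z.1.2.1, z.1.2.2.1 + z.2 - lam) + low u lam (F i) (d i) z

theorem contDiff_sys {n : ℕ} (F : Fin n → MvPolynomial (Fin n ⊕ Fin n) ℂ) (d : Fin n → ℕ)
    (Hf : Fin n → ℂ × (Fin n → ℂ) × (Fin n → ℂ) → ℂ) (hHf : ∀ i, ContDiff ℂ 1 (Hf i))
    (u lam : Fin n → ℂ) : ContDiff ℂ 1 (sys F d Hf u lam) := by
  rw [contDiff_pi]
  intro i
  have h1 : ContDiff ℂ 1 (fun z : Par n × (Fin n → ℂ) => z.1.1) := contDiff_fst.comp contDiff_fst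
  have h2 : ContDiff ℂ 1 (fun z : Par n × (Fin n → ℂ) => z.1.2.1) :=
    contDiff_fst.comp (contDiff_snd.comp contDiff_fst)
  have h3 : ContDiff ℂ 1 (fun z : Par n × (Fin n → ℂ) => z.1.2.2.1) :=
    contDiff_fst.comp (contDiff_snd.comp (contDiff_snd.comp contDiff_fst))
  have h4 : ContDiff ℂ 1 (fun z : Par n × (Fin n → ℂ) => z.1.2.2.2) :=
    contDiff_snd.comp (contDiff_snd.comp (contDiff_snd.comp contDiff_fst))
  have h5 : ContDiff ℂ 1 (fun z : Par n × (Fin n → ℂ) =>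
      Hf i (z.1.1, u + z.1.2.1, z.1.2.2.1 + z.2 - lam)) :=
    (hHf i).comp (h1.prodMk ((contDiff_const.add h2).prodMk
      ((h3.add contDiff_snd).sub contDiff_const)))
  exact (((contDiff_apply ℂ ℂ i).comp h4).add h5).add (contDiff_low u lam (F i) (d i))

/-- the Jacobian matrix at infinity -/
noncomputable def jac {n : ℕ} (F : Fin n → MvPolynomial (Fin n ⊕ Fin n) ℂ) (d : Fin n → ℕ)
    (G : Fin n → MvPolynomial (Fin n) ℂ) (v : Fin n → ℝ) (ξ : Fin n → ℂ) :
    Matrix (Fin n) (Fin n) ℂ :=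
  Matrix.of fun i j => grad G v i j + Complex.exp (ξ j) *
    eval (Sum.elim (dir v) (fun k => Complex.exp (ξ k))) (pderiv (Sum.inr j) (xComp (d i) (F i)))

theorem surj {n : ℕ} (F : Fin n → MvPolynomial (Fin n ⊕ Fin n) ℂ) (d : Fin n → ℕ)
    (G : Fin n → MvPolynomial (Fin n) ℂ) (v : Fin n → ℝ)
    (Hf : Fin n → ℂ × (Fin n → ℂ) × (Fin n → ℂ) → ℂ) (hHf : ∀ i, ContDiff ℂ 1 (Hf i))
    (hHf2 : ∀ i (x w : Fin n → ℂ), Hf i (0, x, w) = ∑ j, eval x (pderiv j (G i)) * w j)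
    (lam ξ σ : Fin n → ℂ) (hdet : (jac F d G v ξ).det ≠ 0) :
    Function.Surjective (fun x : Fin n → ℂ =>
      fderiv ℂ (sys F d Hf (dir v) lam) (((0, 0, 0, σ) : Par n), ξ) (0, x)) := by
  have hd : HasFDerivAt (sys F d Hf (dir v) lam)
      (fderiv ℂ (sys F d Hf (dir v) lam) (((0, 0, 0, σ) : Par n), ξ)) (((0, 0, 0, σ) : Par n), ξ) :=
    ((contDiff_sys F d Hf hHf (dir v) lam).differentiable one_ne_zero _).hasFDerivAt
  have h1 := hd.comp ξ (hasFDerivAt_prodMk_right ((0, 0, 0, σ) : Par n) ξ)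
  have h2 : HasFDerivAt (fun x : Fin n → ℂ => sys F d Hf (dir v) lam (((0, 0, 0, σ) : Par n), x))
      (ContinuousLinearMap.pi fun i => (∑ j, grad G v i j • pr j) +
        ∑ k, (Complex.exp (ξ k) * eval (Sum.elim (dir v) (fun k => Complex.exp (ξ k)))
        (pderiv (Sum.inr k) (xComp (d i) (F i)))) • pr k) ξ := by
    rw [hasFDerivAt_pi]
    intro i
    have e1 : (fun x : Fin n → ℂ => sys F d Hf (dir v) lam (((0, 0, 0, σ) : Par n), x) i) =
        fun x => (σ i + ∑ j, grad G v i j * (x j - lam j)) +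
          eval (Sum.elim (dir v) (fun k => Complex.exp (x k))) (xComp (d i) (F i)) := by
      funext x
      simp only [sys, low_zero, add_zero, zero_add, hHf2, grad, Pi.sub_apply]
    rw [e1]
    refine HasFDerivAt.add ?_ (hasFDerivAt_exp _ _ _)
    refine HasFDerivAt.const_add _ ?_
    have e2 : (fun x : Fin n → ℂ => ∑ j, grad G v i j * (x j - lam j)) =
        fun x => ∑ j, grad G v i j * (pr j x - lam j) := rfl
    rw [e2]
    refine HasFDerivAt.fun_sum fun j _ => ?_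
    exact ((pr j).hasFDerivAt.sub_const _).const_mul _
  have h3 := h1.unique h2
  intro y
  refine ⟨(jac F d G v ξ)⁻¹.mulVec y, ?_⟩
  have h4 : ∀ x : Fin n → ℂ, fderiv ℂ (sys F d Hf (dir v) lam) (((0, 0, 0, σ) : Par n), ξ) (0, x) =
      (jac F d G v ξ).mulVec x := by
    intro x
    have h5 := congrArg (fun L : (Fin n → ℂ) →L[ℂ] (Fin n → ℂ) => L x) h3
    simp only [ContinuousLinearMap.comp_apply, ContinuousLinearMap.inr_apply] at h5
    rw [h5]
    funext i
    simp only [ContinuousLinearMap.pi_apply, ContinuousLinearMap.add_apply,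
      ContinuousLinearMap.sum_apply, ContinuousLinearMap.smul_apply, pr_apply, smul_eq_mul,
      Matrix.mulVec, dotProduct, jac, Matrix.of_apply, add_mul, Finset.sum_add_distrib]
  simp only [h4]
  rw [Matrix.mulVec_mulVec, Matrix.mul_nonsing_inv _ (isUnit_iff_ne_zero.2 hdet), Matrix.one_mulVec]

end Pool.Agent.K3h10.EAC
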