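import Pool.Agent.K3h10.EAC.Real
import Pool.Agent.Helper352.Kron

/-! EAC project: density of the group of periods. -/

set_option autoImplicit false

open Filter Topology MvPolynomial

namespace Pool.Agent.K3h10.EAC

variable {n : ℕ}

/-- Euler's identity at a zero -/
theorem euler (F : MvPolynomial (Fin n ⊕ Fin n) ℂ) (d : ℕ) (G : MvPolynomial (Fin n) ℂ)
    (hG : xComp (d + 1) F = rename Sum.inl G) (x : Fin n → ℂ) (h : eval x G = 0) :
    ∑ j, eval x (pderiv j G) * x j = 0 := by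
  have hw : IsWeightedHomogeneous (wt n) (xComp (d + 1) F) (d + 1) :=
    weightedHomogeneousComponent_isWeightedHomogeneous (d + 1) F
  rw [hG] at hw
  have h1 := congrArg (eval (Sum.elim x x)) hw.sum_weight_X_mul_pderiv
  rw [map_sum, Fintype.sum_sum_type, map_nsmul, eval_ren, h, smul_zero] at h1
  simp only [wt, Sum.elim_inl, Sum.elim_inr, one_smul, zero_smul, map_zero, Finset.sum_const_zero,
    add_zero, map_mul, eval_X, pderiv_ren, eval_ren] at h1
  rw [← h1]
  exact Finset.sum_congr rfl fun j _ => mul_comm _ _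

/-- density of the group of periods -/
theorem dense_periods (A : Fin n → Fin n → ℂ) (v : Fin n → ℝ)
    (hA : ∀ i, ∑ j, A i j * (v j : ℂ) = 0)
    (hind : ∀ m : Fin n → ℤ, ∑ j, (m j : ℝ) * v j = 0 → m = 0)
    (s : Fin n → ℂ) (x : Fin n → ℝ)
    (hx : ∀ i, ∑ j, A i j * (x j : ℂ) = s i / (2 * Real.pi * Complex.I)) :
    s ∈ closure (Set.range fun K : Fin n → ℤ => fun i =>
      ∑ j, A i j * (2 * Real.pi * Complex.I * (K j : ℂ))) := by
  rw [Metric.mem_closure_iff]
  intro ε hε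
  have hpi := Real.pi_pos
  set C : ℝ := 1 + ∑ i, ∑ j, ‖A i j‖ * (2 * Real.pi) with hC
  have hC0 : 0 < C := by positivity
  obtain ⟨t, -, ht⟩ := Pool.Agent.Helper352.kronecker v (fun j => - x j)
    (fun c hc => ⟨0, by
      rw [hind c hc]
      simp⟩) (ε / C) (by positivity) 0
  choose K hK using ht
  refine ⟨_, ⟨K, rfl⟩, ?_⟩
  rw [dist_pi_lt_iff hε]
  intro i
  rw [dist_eq_norm]
  have e1 : s i = 2 * Real.pi * Complex.I * ∑ j, A i j * (x j : ℂ) := by
    rw [hx i]
    field_simp [tpi_ne]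
  have e2 : s i - ∑ j, A i j * (2 * Real.pi * Complex.I * (K j : ℂ)) =
      ∑ j, A i j * (2 * Real.pi * Complex.I) * ((t * v j - (- x j) - (K j : ℝ) : ℝ) : ℂ) := by
    have h3 : (2 * Real.pi * Complex.I) * (t : ℂ) * ∑ j, A i j * (v j : ℂ) = 0 := by
      rw [hA i, mul_zero]
    rw [e1]
    rw [← sub_eq_zero]
    have h4 : ∑ j, A i j * (2 * Real.pi * Complex.I) * ((t * v j - (- x j) - (K j : ℝ) : ℝ) : ℂ) =
      2 * Real.pi * Complex.I * ∑ j, A i j * (x j : ℂ) -
        ∑ j, A i j * (2 * Real.pi * Complex.I * (K j : ℂ)) +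
        (2 * Real.pi * Complex.I) * (t : ℂ) * ∑ j, A i j * (v j : ℂ) := by
      rw [Finset.mul_sum, Finset.mul_sum, ← Finset.sum_sub_distrib, ← Finset.sum_add_distrib]
      refine Finset.sum_congr rfl fun j _ => ?_
      push_cast
      ring
    rw [h4, h3]
    ring
  rw [e2]
  have h5 : ∀ j, ‖A i j * (2 * Real.pi * Complex.I) * ((t * v j - (- x j) - (K j : ℝ) : ℝ) : ℂ)‖ ≤
      ‖A i j‖ * (2 * Real.pi) * (ε / C) := by
    intro j
    rw [norm_mul, norm_mul, Complex.norm_real, Real.norm_eq_abs]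
    have : ‖(2 * Real.pi * Complex.I : ℂ)‖ = 2 * Real.pi := by
      rw [norm_mul, norm_mul, Complex.norm_I, mul_one]
      simp [abs_of_pos hpi]
    rw [this]
    exact mul_le_mul_of_nonneg_left (hK j).le (by positivity)
  calc _ ≤ ∑ j, ‖A i j‖ * (2 * Real.pi) * (ε / C) := norm_sum_le_of_le _ fun j _ => h5 j
    _ = (∑ j, ‖A i j‖ * (2 * Real.pi)) * (ε / C) := by rw [Finset.sum_mul]
    _ < C * (ε / C) := by
      refine mul_lt_mul_of_pos_right ?_ (by positivity)
      have : ∑ j, ‖A i j‖ * (2 * Real.pi) ≤ ∑ i, ∑ j, ‖A i j‖ * (2 * Real.pi) :=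
        Finset.single_le_sum (f := fun i => ∑ j, ‖A i j‖ * (2 * Real.pi))
          (fun i _ => by positivity) (Finset.mem_univ i)
      rw [hC]
      linarith
    _ = ε := by field_simp

end Pool.Agent.K3h10.EAC
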