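import Pool.Agent.K3h10.EAC.Core

/-! EAC project: exponential points near infinity in imaginary directions, the main theorem. -/

set_option autoImplicit false

open Filter Topology MvPolynomial

namespace Pool.Agent.K3h10.EAC

/-- evaluation at a large multiple of `X` -/
theorem eval_big {n : ℕ} (H : MvPolynomial (Fin n ⊕ Fin n) ℂ) (h : ℕ)
    (hH : ∀ j, h < j → xComp j H = 0) (u lam : Fin n → ℂ) (z : Par n × (Fin n → ℂ)) (q : ℂ)
    (hq : q ≠ 0) (hz : z.1.1 = q⁻¹) :
    eval (Sum.elim (q • pt u lam z) (fun k => Complex.exp (z.2 k))) H = q ^ h * low u lam H h z := by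
  rw [eval_sum H h hH, low, Finset.mul_sum]
  refine Finset.sum_congr rfl fun j hj => ?_
  rw [eval_scale, hz, ← mul_assoc]
  congr 1
  have : j ≤ h := by
    have := Finset.mem_range.1 hj
    omega
  rw [inv_pow]
  rw [eq_mul_inv_iff_mul_eq₀ (pow_ne_zero _ hq), ← pow_add]
  congr 1
  omega

/-- the same for a system with a leading form in `x` -/
theorem eval_big' {n : ℕ} (F : MvPolynomial (Fin n ⊕ Fin n) ℂ) (d : ℕ) (G : MvPolynomial (Fin n) ℂ)
    (hF : ∀ j, d + 1 < j → xComp j F = 0) (hG : xComp (d + 1) F = rename Sum.inl G)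
    (u lam : Fin n → ℂ) (z : Par n × (Fin n → ℂ)) (q : ℂ) (hq : q ≠ 0) (hz : z.1.1 = q⁻¹) :
    eval (Sum.elim (q • pt u lam z) (fun k => Complex.exp (z.2 k))) F =
      q ^ d * (q * eval (pt u lam z) G + low u lam F d z) := by
  rw [eval_sum F (d + 1) hF, Finset.sum_range_succ, low, mul_add, Finset.mul_sum, add_comm]
  congr 1
  · rw [eval_scale, hG, eval_rename, pow_succ]
    have : (Sum.elim (pt u lam z) (fun k => Complex.exp (z.2 k)) ∘ Sum.inl : Fin n → ℂ) =
        pt u lam z := by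
      funext k
      rfl
    rw [this]
    ring
  · refine Finset.sum_congr rfl fun j hj => ?_
    rw [eval_scale, hz, ← mul_assoc]
    congr 1
    have : j ≤ d := by
      have := Finset.mem_range.1 hj
      omega
    rw [inv_pow]
    rw [eq_mul_inv_iff_mul_eq₀ (pow_ne_zero _ hq), ← pow_add]
    congr 1
    omega

theorem main {n : ℕ} (F : Fin n → MvPolynomial (Fin n ⊕ Fin n) ℂ) (d : Fin n → ℕ)
    (G : Fin n → MvPolynomial (Fin n) ℂ)
    (hF : ∀ i j, d i + 1 < j → xComp j (F i) = 0)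
    (hG : ∀ i, xComp (d i + 1) (F i) = rename Sum.inl (G i))
    (v : Fin n → ℝ) (hv : ∀ i, eval (dir v) (G i) = 0)
    (lam ξ : Fin n → ℂ)
    (hcl : (fun i => -((∑ j, grad G v i j * (ξ j - lam j)) +
        eval (Sum.elim (dir v) (fun k => Complex.exp (ξ k))) (xComp (d i) (F i)))) ∈
      closure (Set.range fun K : Fin n → ℤ => fun i =>
        ∑ j, grad G v i j * (2 * Real.pi * Complex.I * (K j : ℂ))))
    (hdet : (jac F d G v ξ).det ≠ 0)
    (H : MvPolynomial (Fin n ⊕ Fin n) ℂ) (h : ℕ) (hH : ∀ j, h < j → xComp j H = 0)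
    (hHne : eval (Sum.elim (dir v) (fun k => Complex.exp (ξ k))) (xComp h H) ≠ 0)
    (η : ℝ) (hη : 0 < η) :
    ∃ K : Fin n → ℤ, ∀ B : ℕ, ∃ t : ℕ, B ≤ t ∧ ∃ N : Fin n → ℤ,
      (∀ j, |(N j : ℝ) - (t : ℝ) * v j| < η) ∧ ∃ z : Fin n → ℂ,
      (∀ j, ‖z j - (2 * Real.pi * Complex.I * ((N j : ℂ) + (K j : ℂ)) + ξ j - lam j)‖ < η) ∧
      (∀ i, eval (Sum.elim z (fun k => Complex.exp (z k + lam k))) (F i) = 0) ∧
      eval (Sum.elim z (fun k => Complex.exp (z k + lam k))) H ≠ 0 := by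
  choose Hf hHf1 hHf2 hHf3 using fun i => expand (G i)
  set s₀ : Fin n → ℂ := fun i => -((∑ j, grad G v i j * (ξ j - lam j)) +
        eval (Sum.elim (dir v) (fun k => Complex.exp (ξ k))) (xComp (d i) (F i))) with hs₀
  have hzero : sys F d Hf (dir v) lam (((0, 0, 0, s₀) : Par n), ξ) = 0 := by
    funext i
    simp only [sys, low_zero, add_zero, zero_add, hHf3, Pi.sub_apply, Pi.zero_apply, hs₀, grad]
    ring
  have hsurj := surj F d G v Hf hHf1 hHf3 lam ξ s₀ hdet
  -- the neighbourhood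
  have hW : {z : Par n × (Fin n → ℂ) | (∀ j, ‖z.2 j - ξ j‖ < η / 2) ∧ low (dir v) lam H h z ≠ 0} ∈
      𝓝 ((((0, 0, 0, s₀) : Par n), ξ) : Par n × (Fin n → ℂ)) := by
    refine (IsOpen.mem_nhds ?_ ?_)
    · rw [Set.ofPred_and]
      refine IsOpen.inter ?_ ?_
      · rw [Set.ofPred_forall]
        refine isOpen_iInter_of_finite fun j => ?_
        refine isOpen_lt ?_ continuous_const
        exact (((continuous_apply j).comp continuous_snd).sub continuous_const).norm
      · exact isOpen_ne_fun (contDiff_low (dir v) lam H h).continuous continuous_const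
    · refine ⟨fun j => ?_, ?_⟩
      · simpa using hη
      · rw [low_zero]
        exact hHne
  have hgood := perturb (sys F d Hf (dir v) lam) ((0, 0, 0, s₀) : Par n) ξ
    (contDiff_sys F d Hf hHf1 (dir v) lam).contDiffAt hzero hsurj _ hW
  have hgood2 := eventually_eventually_nhds.2 hgood
  have hten : Tendsto (fun s : Fin n → ℂ => ((0, 0, 0, s) : Par n)) (𝓝 s₀) (𝓝 ((0, 0, 0, s₀) : Par n)) := by
    have : Continuous (fun s : Fin n → ℂ => ((0, 0, 0, s) : Par n)) := by fun_prop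
    exact this.tendsto s₀
  have hgood3 := hten.eventually hgood2
  obtain ⟨s, hs1, ⟨K, hK⟩⟩ := ((mem_closure_iff_frequently.1 hcl).and_eventually hgood3).exists.imp
    (fun s hs => (⟨hs.2, hs.1⟩ : _ ∧ _))
  refine ⟨K, ?_⟩
  obtain ⟨q, N, hq, hN⟩ := dirichlet v
  -- the parameters
  set kk : Fin n → ℂ := fun j => 2 * Real.pi * Complex.I * (K j : ℂ) with hkk
  set p : ℕ → Par n := fun m => (((q m : ℂ))⁻¹, ((q m : ℂ))⁻¹ • kk,
    (fun j => 2 * Real.pi * Complex.I * ((((N m j : ℤ) : ℝ) - (q m : ℝ) * v j : ℝ) : ℂ)),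
    (fun i => Hf i (((q m : ℂ))⁻¹, dir v, kk))) with hp
  have hε : Tendsto (fun m => ((q m : ℂ))⁻¹) atTop (𝓝 0) :=
    (tendsto_inv_atTop_nhds_zero_nat (𝕜 := ℂ)).comp hq
  have hδ : Tendsto (fun m => (fun j => 2 * Real.pi * Complex.I *
      ((((N m j : ℤ) : ℝ) - (q m : ℝ) * v j : ℝ) : ℂ) : Fin n → ℂ)) atTop (𝓝 0) := by
    rw [tendsto_pi_nhds]
    intro j
    have h1 := (tendsto_pi_nhds.1 hN) j
    have h2 : Tendsto (fun m => ((((N m j : ℤ) : ℝ) - (q m : ℝ) * v j : ℝ) : ℂ)) atTop (𝓝 ((0 : ℝ) : ℂ)) :=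
      (Complex.continuous_ofReal.tendsto 0).comp h1
    have h3 := h2.const_mul (2 * Real.pi * Complex.I)
    simpa using h3
  have hσ : Tendsto (fun m => (fun i => Hf i (((q m : ℂ))⁻¹, dir v, kk) : Fin n → ℂ)) atTop (𝓝 s) := by
    rw [tendsto_pi_nhds]
    intro i
    have h1 : Tendsto (fun m => ((((q m : ℂ))⁻¹, dir v, kk) : ℂ × (Fin n → ℂ) × (Fin n → ℂ))) atTop
        (𝓝 (0, dir v, kk)) := hε.prodMk_nhds tendsto_const_nhds
    have h2 := ((hHf1 i).continuous.tendsto (0, dir v, kk)).comp h1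
    rw [hHf3] at h2
    have h3 : s i = ∑ j, eval (dir v) (pderiv j (G i)) * kk j := by
      rw [← hK]
      rfl
    rw [h3]
    exact h2
  have hb : Tendsto (fun m => ((q m : ℂ))⁻¹ • kk) atTop (𝓝 0) := by
    have := hε.smul (tendsto_const_nhds (x := kk))
    simpa using this
  have hpt : Tendsto p atTop (𝓝 ((0, 0, 0, s) : Par n)) :=
    hε.prodMk_nhds (hb.prodMk_nhds (hδ.prodMk_nhds hσ))
  have hev := hpt.eventually hs1
  intro B
  have hev2 : ∀ᶠ m in atTop, ∀ j, |((N m j : ℤ) : ℝ) - (q m : ℝ) * v j| < η := by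
    rw [eventually_all]
    intro j
    have h1 := ((tendsto_pi_nhds.1 hN) j).abs
    simp only [Pi.zero_apply, abs_zero] at h1
    exact h1.eventually_lt_const hη
  obtain ⟨m, ⟨ξ', ⟨hx1, hx2⟩, hx3⟩, hm2, hm3⟩ := (hev.and (hev2.and (hq.eventually_ge_atTop (B + 1)))).exists
  have hq0 : (q m : ℂ) ≠ 0 := by
    have : q m ≠ 0 := by omega
    exact_mod_cast this
  refine ⟨q m, by omega, N m, hm2,
    fun j => 2 * Real.pi * Complex.I * ((N m j : ℂ) + (K j : ℂ)) + ξ' j - lam j, ?_, ?_⟩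
  · intro j
    have e1 : 2 * Real.pi * Complex.I * ((N m j : ℂ) + (K j : ℂ)) + ξ' j - lam j -
        (2 * Real.pi * Complex.I * ((N m j : ℂ) + (K j : ℂ)) + ξ j - lam j) = ξ' j - ξ j := by
      ring
    rw [e1]
    exact (hx1 j).trans (by linarith)
  · have e2 : ∀ k, Complex.exp (2 * Real.pi * Complex.I * ((N m k : ℂ) + (K k : ℂ)) + ξ' k - lam k + lam k) =
        Complex.exp (ξ' k) := by
      intro k
      have : 2 * Real.pi * Complex.I * ((N m k : ℂ) + (K k : ℂ)) + ξ' k - lam k + lam k =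
          ((N m k + K k : ℤ) : ℂ) * (2 * Real.pi * Complex.I) + ξ' k := by
        push_cast
        ring
      rw [this, Complex.exp_add, Complex.exp_int_mul_two_pi_mul_I, one_mul]
    have e3 : (fun j => 2 * Real.pi * Complex.I * ((N m j : ℂ) + (K j : ℂ)) + ξ' j - lam j : Fin n → ℂ) =
        (q m : ℂ) • pt (dir v) lam (p m, ξ') := by
      funext j
      simp only [pt, hp, dir, hkk, Pi.smul_apply, Pi.add_apply, Pi.sub_apply, smul_eq_mul]
      push_cast
      field_simp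
      ring
    simp only [e2]
    rw [e3]
    constructor
    · intro i
      have h1 := eval_big' (F i) (d i) (G i) (hF i) (hG i) (dir v) lam (p m, ξ') (q m : ℂ) hq0 rfl
      refine h1.trans ?_
      have h2 := congrFun hx3 i
      simp only [sys, Pi.zero_apply] at h2
      have h3 : (q m : ℂ) * eval (pt (dir v) lam (p m, ξ')) (G i) =
          (p m).2.2.2 i + Hf i ((p m).1, dir v + (p m).2.1, (p m).2.2.1 + ξ' - lam) := by
        have h4 : pt (dir v) lam (p m, ξ') = (dir v + (p m).2.1) + (p m).1 • ((p m).2.2.1 + ξ' - lam) := rfl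
        rw [h4, hHf2]
        have h5 : dir v + (p m).2.1 = dir v + (q m : ℂ)⁻¹ • kk := rfl
        have h6 : eval (dir v + (p m).2.1) (G i) = (q m : ℂ)⁻¹ * Hf i ((q m : ℂ)⁻¹, dir v, kk) := by
          rw [h5, hHf2, hv i, zero_add]
        rw [h6]
        have h7 : (p m).2.2.2 i = Hf i ((q m : ℂ)⁻¹, dir v, kk) := rfl
        have h8 : (p m).1 = (q m : ℂ)⁻¹ := rfl
        rw [h7, h8]
        field_simp
      rw [h3, h2, mul_zero]
    · have h1 := eval_big H h hH (dir v) lam (p m, ξ') (q m : ℂ) hq0 rfl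
      intro h2
      rw [h1] at h2
      exact (mul_ne_zero (pow_ne_zero _ hq0) hx2) h2

end Pool.Agent.K3h10.EAC
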