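import Mathlib

/-! EAC project: zeros of small perturbations, polynomial functions, simultaneous approximation. -/

set_option autoImplicit false

open Filter Topology

namespace Pool.Agent.K3h10.EAC

/-- A nondegenerate zero persists under small changes of the parameters. -/
theorem perturb {Q X : Type*} [NormedAddCommGroup Q] [NormedSpace ℂ Q] [CompleteSpace Q]
    [NormedAddCommGroup X] [NormedSpace ℂ X] [CompleteSpace X]
    (E : Q × X → X) (p₀ : Q) (x₀ : X) (hE : ContDiffAt ℂ 1 E (p₀, x₀)) (h0 : E (p₀, x₀) = 0)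
    (hsurj : Function.Surjective (fun x : X => fderiv ℂ E (p₀, x₀) (0, x)))
    (W : Set (Q × X)) (hW : W ∈ 𝓝 (p₀, x₀)) :
    ∀ᶠ p in 𝓝 p₀, ∃ x, (p, x) ∈ W ∧ E (p, x) = 0 := by
  have h1 : HasStrictFDerivAt E (fderiv ℂ E (p₀, x₀)) (p₀, x₀) :=
    hE.hasStrictFDerivAt one_ne_zero
  have h2 : HasStrictFDerivAt (fun z : Q × X => (z.1, E z))
      ((ContinuousLinearMap.fst ℂ Q X).prod (fderiv ℂ E (p₀, x₀))) (p₀, x₀) :=
    hasStrictFDerivAt_fst.prodMk h1
  have h3 : ((ContinuousLinearMap.fst ℂ Q X).prod (fderiv ℂ E (p₀, x₀))).range = ⊤ := by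
    rw [LinearMap.range_eq_top]
    rintro ⟨a, b⟩
    obtain ⟨x, hx⟩ := hsurj (b - fderiv ℂ E (p₀, x₀) (a, 0))
    refine ⟨(a, x), ?_⟩
    have : ((a, x) : Q × X) = (a, 0) + (0, x) := by simp
    simp only [ContinuousLinearMap.coe_coe, ContinuousLinearMap.prod_apply,
      ContinuousLinearMap.coe_fst', Prod.mk.injEq, true_and]
    rw [this, map_add]
    simp only at hx
    rw [hx]
    abel
  have h4 := h2.map_nhds_eq_of_surj h3
  have h5 : (fun z : Q × X => (z.1, E z)) '' W ∈ 𝓝 ((p₀, (0 : X)) : Q × X) := by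
    have : ((p₀, (0 : X)) : Q × X) = (fun z : Q × X => (z.1, E z)) (p₀, x₀) := by simp [h0]
    rw [this, ← h4]
    exact image_mem_map hW
  have h6 : Tendsto (fun p : Q => (p, (0 : X))) (𝓝 p₀) (𝓝 (p₀, 0)) :=
    (Continuous.prodMk_left (0 : X)).tendsto p₀
  filter_upwards [h6 h5] with p hp
  obtain ⟨⟨p', x⟩, hm, he⟩ := hp
  simp only [Prod.mk.injEq] at he
  obtain ⟨rfl, he⟩ := he
  exact ⟨x, hm, he⟩

/-- simultaneous approximation: integer points close to arbitrarily large multiples of `v` -/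
theorem dirichlet {n : ℕ} (v : Fin n → ℝ) : ∃ (q : ℕ → ℕ) (N : ℕ → Fin n → ℤ),
    Tendsto q atTop atTop ∧
      Tendsto (fun m => fun i => ((N m i : ℤ) : ℝ) - (q m : ℝ) * v i) atTop (𝓝 (0 : Fin n → ℝ)) := by
  have hc : IsCompact (Set.univ.pi fun _ : Fin n => Set.Icc (0 : ℝ) 1) :=
    isCompact_univ_pi fun _ => isCompact_Icc
  obtain ⟨a, -, φ, hφ, hlim⟩ := hc.tendsto_subseq (x := fun j : ℕ => fun i => Int.fract ((j : ℝ) * v i))
    (fun j => by
      intro i _
      exact ⟨Int.fract_nonneg _, (Int.fract_lt_one _).le⟩)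
  have hge : ∀ m, φ m + m ≤ φ (2 * m) := by
    intro m
    have h : ∀ k, φ m + k ≤ φ (m + k) := by
      intro k
      induction k with
      | zero => simp
      | succ k ih =>
        have : φ (m + k) < φ (m + k + 1) := hφ (Nat.lt_succ_self _)
        rw [← Nat.add_assoc]
        rw [← Nat.add_assoc]
        omega
    have := h m
    rwa [← two_mul] at this
  refine ⟨fun m => φ (2 * m) - φ m, fun m i => ⌊((φ (2 * m) : ℕ) : ℝ) * v i⌋ - ⌊((φ m : ℕ) : ℝ) * v i⌋,
    ?_, ?_⟩
  · refine tendsto_atTop_mono (fun m => ?_) tendsto_id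
    have := hge m
    simp only [id]
    omega
  · have h2 : Tendsto (fun m : ℕ => 2 * m) atTop atTop :=
      tendsto_atTop_mono (fun m => by simp only [id]; omega) tendsto_id
    have h3 := (hlim.comp h2)
    have h4 := hlim.sub h3
    rw [sub_self] at h4
    refine h4.congr fun m => ?_
    funext i
    have h5 : ((φ (2 * m) - φ m : ℕ) : ℝ) = (φ (2 * m) : ℝ) - (φ m : ℝ) := by
      rw [Nat.cast_sub]
      have := hge m
      omega
    simp only [Function.comp, Pi.sub_apply, Int.fract, h5]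
    push_cast
    ring

end Pool.Agent.K3h10.EAC
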