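import Pool.Agent.K3h10.EAC.Main

/-! EAC project: the main theorem for real directions and translates. -/

set_option autoImplicit false

open Filter Topology MvPolynomial

namespace Pool.Agent.K3h10.EAC

variable {n : ℕ}

/-- the point with real `x`-coordinates -/
noncomputable def rv (v : Fin n → ℝ) : Fin n → ℂ := fun j => (v j : ℂ)

theorem dir_eq (v : Fin n → ℝ) : dir v = (2 * Real.pi * Complex.I) • rv v := by
  funext j
  simp [dir, rv]

theorem tpi_ne : (2 * Real.pi * Complex.I : ℂ) ≠ 0 := Complex.two_pi_I_ne_zero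

theorem eval_dir (v : Fin n → ℝ) (y : Fin n → ℂ) (j : ℕ) (F : MvPolynomial (Fin n ⊕ Fin n) ℂ) :
    eval (Sum.elim (dir v) y) (xComp j F) =
      (2 * Real.pi * Complex.I) ^ j * eval (Sum.elim (rv v) y) (xComp j F) := by
  rw [dir_eq, eval_scale]

theorem xComp_pderiv_inr (k : Fin n) (j : ℕ) (F : MvPolynomial (Fin n ⊕ Fin n) ℂ) :
    pderiv (Sum.inr k) (xComp j F) = xComp j (pderiv (Sum.inr k) (xComp j F)) := by
  have hw : IsWeightedHomogeneous (wt n) (xComp j F) j :=
    weightedHomogeneousComponent_isWeightedHomogeneous j F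
  have h2 : IsWeightedHomogeneous (wt n) (pderiv (Sum.inr k) (xComp j F)) j := by
    refine IsWeightedHomogeneous.pderiv hw ?_
    simp [wt]
  symm
  exact h2.weightedHomogeneousComponent_same

theorem xComp_pderiv_inl (k : Fin n) (j : ℕ) (F : MvPolynomial (Fin n ⊕ Fin n) ℂ) :
    pderiv (Sum.inl k) (xComp (j + 1) F) = xComp j (pderiv (Sum.inl k) (xComp (j + 1) F)) := by
  have hw : IsWeightedHomogeneous (wt n) (xComp (j + 1) F) (j + 1) :=
    weightedHomogeneousComponent_isWeightedHomogeneous (j + 1) F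
  have h2 : IsWeightedHomogeneous (wt n) (pderiv (Sum.inl k) (xComp (j + 1) F)) j := by
    refine IsWeightedHomogeneous.pderiv hw ?_
    simp [wt]
  symm
  exact h2.weightedHomogeneousComponent_same

theorem pderiv_ren (k : Fin n) (G : MvPolynomial (Fin n) ℂ) :
    pderiv (Sum.inl k : Fin n ⊕ Fin n) (rename Sum.inl G) = rename Sum.inl (pderiv k G) :=
  MvPolynomial.pderiv_rename Sum.inl_injective k G

theorem eval_ren (x y : Fin n → ℂ) (G : MvPolynomial (Fin n) ℂ) :
    eval (Sum.elim x y) (rename Sum.inl G) = eval x G := by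
  rw [eval_rename]
  congr 1

/-- the gradient at `2 π i v` -/
theorem grad_dir (F : MvPolynomial (Fin n ⊕ Fin n) ℂ) (d : ℕ) (G : MvPolynomial (Fin n) ℂ)
    (hG : xComp (d + 1) F = rename Sum.inl G) (v : Fin n → ℝ) (k : Fin n) :
    eval (dir v) (pderiv k G) = (2 * Real.pi * Complex.I) ^ d * eval (rv v) (pderiv k G) := by
  have h1 := xComp_pderiv_inl k d F
  rw [hG, pderiv_ren] at h1
  have h2 := eval_dir v (rv v) d (rename Sum.inl (pderiv k G))
  rw [← h1, eval_ren, eval_ren] at h2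
  exact h2

/-- the value at `2 π i v` -/
theorem zero_dir (F : MvPolynomial (Fin n ⊕ Fin n) ℂ) (d : ℕ) (G : MvPolynomial (Fin n) ℂ)
    (hG : xComp (d + 1) F = rename Sum.inl G) (v : Fin n → ℝ) (h : eval (rv v) G = 0) :
    eval (dir v) G = 0 := by
  have h2 := eval_dir v (rv v) (d + 1) F
  rw [hG, eval_ren, eval_ren, h, mul_zero] at h2
  exact h2

theorem real_main (F : Fin n → MvPolynomial (Fin n ⊕ Fin n) ℂ) (d : Fin n → ℕ)
    (G : Fin n → MvPolynomial (Fin n) ℂ)
    (hF : ∀ i j, d i + 1 < j → xComp j (F i) = 0)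
    (hG : ∀ i, xComp (d i + 1) (F i) = rename Sum.inl (G i))
    (v : Fin n → ℝ) (hv : ∀ i, eval (rv v) (G i) = 0)
    (lam ξ : Fin n → ℂ)
    (hcl : (fun i => -((∑ j, eval (rv v) (pderiv j (G i)) * (ξ j - lam j)) +
        eval (Sum.elim (rv v) (fun k => Complex.exp (ξ k))) (xComp (d i) (F i)))) ∈
      closure (Set.range fun K : Fin n → ℤ => fun i =>
        ∑ j, eval (rv v) (pderiv j (G i)) * (2 * Real.pi * Complex.I * (K j : ℂ))))
    (hdet : (Matrix.of fun i j : Fin n => eval (rv v) (pderiv j (G i)) + Complex.exp (ξ j) *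
      eval (Sum.elim (rv v) (fun k => Complex.exp (ξ k)))
        (pderiv (Sum.inr j) (xComp (d i) (F i)))).det ≠ 0)
    (H : MvPolynomial (Fin n ⊕ Fin n) ℂ) (h : ℕ) (hH : ∀ j, h < j → xComp j H = 0)
    (hHne : eval (Sum.elim (rv v) (fun k => Complex.exp (ξ k))) (xComp h H) ≠ 0)
    (η : ℝ) (hη : 0 < η) :
    ∃ K : Fin n → ℤ, ∀ B : ℕ, ∃ t : ℕ, B ≤ t ∧ ∃ N : Fin n → ℤ,
      (∀ j, |(N j : ℝ) - (t : ℝ) * v j| < η) ∧ ∃ z : Fin n → ℂ,
      (∀ j, ‖z j - (2 * Real.pi * Complex.I * ((N j : ℂ) + (K j : ℂ)) + ξ j - lam j)‖ < η) ∧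
      (∀ i, eval (Sum.elim z (fun k => Complex.exp (z k + lam k))) (F i) = 0) ∧
      eval (Sum.elim z (fun k => Complex.exp (z k + lam k))) H ≠ 0 := by
  have hp : ∀ m : ℕ, (2 * Real.pi * Complex.I : ℂ) ^ m ≠ 0 := fun m => pow_ne_zero _ tpi_ne
  refine main F d G hF hG v (fun i => zero_dir (F i) (d i) (G i) (hG i) v (hv i)) lam ξ ?_ ?_ H h
    hH ?_ η hη
  · -- the closure
    have hc : Continuous (fun w : Fin n → ℂ => fun i => (2 * Real.pi * Complex.I : ℂ) ^ (d i) * w i) := by
      fun_prop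
    have h1 := image_closure_subset_closure_image hc ⟨_, hcl, rfl⟩
    have e1 : (fun i => (2 * Real.pi * Complex.I : ℂ) ^ (d i) *
        (-((∑ j, eval (rv v) (pderiv j (G i)) * (ξ j - lam j)) +
        eval (Sum.elim (rv v) (fun k => Complex.exp (ξ k))) (xComp (d i) (F i))))) =
        (fun i => -((∑ j, grad G v i j * (ξ j - lam j)) +
        eval (Sum.elim (dir v) (fun k => Complex.exp (ξ k))) (xComp (d i) (F i)))) := by
      funext i
      rw [eval_dir]
      simp only [grad, grad_dir (F i) (d i) (G i) (hG i) v]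
      simp only [mul_assoc, ← Finset.mul_sum]
      ring
    have e2 : (fun w : Fin n → ℂ => fun i => (2 * Real.pi * Complex.I : ℂ) ^ (d i) * w i) ''
        (Set.range fun K : Fin n → ℤ => fun i =>
        ∑ j, eval (rv v) (pderiv j (G i)) * (2 * Real.pi * Complex.I * (K j : ℂ))) =
        Set.range fun K : Fin n → ℤ => fun i =>
        ∑ j, grad G v i j * (2 * Real.pi * Complex.I * (K j : ℂ)) := by
      rw [← Set.range_comp]
      congr 1
      funext K i
      simp only [Function.comp, grad, grad_dir (F i) (d i) (G i) (hG i) v, Finset.mul_sum, mul_assoc]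
    rw [e2] at h1
    simp only at h1
    rw [e1] at h1
    exact h1
  · -- the determinant
    have e1 : jac F d G v ξ = Matrix.diagonal (fun i => (2 * Real.pi * Complex.I : ℂ) ^ (d i)) *
      (Matrix.of fun i j : Fin n => eval (rv v) (pderiv j (G i)) + Complex.exp (ξ j) *
      eval (Sum.elim (rv v) (fun k => Complex.exp (ξ k)))
        (pderiv (Sum.inr j) (xComp (d i) (F i)))) := by
      ext i j
      rw [Matrix.diagonal_mul, jac, Matrix.of_apply, Matrix.of_apply, grad,
        grad_dir (F i) (d i) (G i) (hG i) v, xComp_pderiv_inr, eval_dir]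
      ring
    rw [e1, Matrix.det_mul, Matrix.det_diagonal]
    exact mul_ne_zero (Finset.prod_ne_zero_iff.2 fun i _ => hp _) hdet
  · rw [eval_dir]
    exact mul_ne_zero (hp _) hHne

end Pool.Agent.K3h10.EAC
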